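import Pool.Agent.J6H49.BC.Stm
import Pool.Agent.TH690.J100

/-!
# The fixed proof (module C)
-/

set_option autoImplicit false

namespace Pool.Agent.J6H40.BC

open Pool.Agent.TH672 (Fm Str upd varStr num digits LogK ReplK Sw Pv upd_same upd_ne upd_upd
  upd_self)
open Pool.Agent.TH636.BC (Fml IsProof str strs Proves code inst robinson Arith PrRel
  Numerates con conAt lt col Ef Cf TE hd bs tl appn Erel Crel)
open Pool.Agent.TH838.J1549 (Q exists_Q sat_inst free_inst closed_robinson pv_proof sat_cong)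
open Pool.Agent.J6H49.BC

/-! ### closedness -/

theorem closed_U0 : ∀ ψ ∈ U0, ψ.Closed := by
  simp only [U0, List.mem_cons, List.not_mem_nil, or_false, forall_eq_or_imp,
    forall_eq, Fm.Closed, Fm.Free, Fm.ex, Fm.or, Fm.and, Fm.neg, hi, col, lt]
  refine ⟨?_, ?_, ?_, ?_, ?_, ?_⟩ <;> intro x <;> omega

theorem free_appn {σ : List Bool} {ψ : Fml} {y : ℕ} (h : (appn σ ψ).Free y) :
    y = 17 ∨ (y ≠ 21 ∧ y ≠ 23 ∧ y ≠ 25 ∧ y ≠ 27 ∧ ψ.Free y) := by
  obtain ⟨h1, h2, h3⟩ := free_inst h
  obtain ⟨h4, h5, h6⟩ := free_inst h3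
  simp only [Fm.Free] at h6
  obtain ⟨h7, h8 | h8⟩ := h6
  · omega
  · obtain ⟨h9, h10 | h10⟩ := h8
    · omega
    · exact .inr ⟨h2, h5, h7, h9, h10⟩

theorem closed_TE : ∀ ψ ∈ TE, ψ.Closed := by
  simp only [TE, List.mem_cons, List.not_mem_nil, or_false, forall_eq_or_imp, forall_eq]
  refine ⟨?_, ?_, ?_, ?_, ?_⟩
  · rintro x ⟨h1, h2 | h2⟩
    · exact h1 h2
    · obtain ⟨h3, h4, h5⟩ := free_inst h2
      simp only [Ef, Fm.Free] at h5
      omega
  · rintro x ⟨h1, h2, h3 | ⟨h3, h4 | h4⟩⟩
    · simp only [Ef, Fm.Free] at h3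
      omega
    · simp only [Fm.Free] at h4
      omega
    · rcases free_appn h4 with h5 | ⟨h5, h6, h7, h8, h9⟩
      · omega
      · simp only [Ef, Fm.Free] at h9
        omega
  · rintro x ⟨h1, h2, h3 | ⟨h3, h4 | h4⟩⟩
    · simp only [Ef, Fm.Free] at h3
      omega
    · simp only [Fm.Free] at h4
      omega
    · rcases free_appn h4 with h5 | ⟨h5, h6, h7, h8, h9⟩
      · omega
      · simp only [Cf, Fm.Free] at h9
        omega
  · intro x h
    simp only [Cf, Fm.Free] at h
    omega
  · intro x h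
    simp only [Cf, Fm.Free] at h
    omega

theorem free_XX {x : ℕ} (h : XX.Free x) : x = 3 := by
  simp only [XX, Fm.neg, Fm.Free, col, lt, or_false] at h
  omega

theorem free_neg4 {P : Fml} (hP : Numerates P) {n x : ℕ} (h : (inst 4 n P.neg).Free x) :
    x = 2 ∨ x = 3 := by
  obtain ⟨h1, h2, h3⟩ := free_inst h
  simp only [Fm.neg, Fm.Free, or_false] at h3
  have := hP.free x h3
  omega

theorem free_rf {P : Fml} (hP : Numerates P) {x : ℕ} (h : (rf P).Free x) : x = 29 := by
  obtain ⟨h1, h2 | ⟨h2, h3 | h3⟩⟩ := h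
  · simp only [Cf, Fm.Free] at h2
    omega
  · exact absurd (free_XX h3) h2
  · have := free_neg4 hP h3
    omega

theorem closed_RA {P : Fml} (hP : Numerates P) : ∀ ψ ∈ RA P, ψ.Closed := by
  intro ψ hψ
  simp only [RA, WB, List.mem_cons, List.mem_append] at hψ
  rcases hψ with rfl | (hψ | hψ) | hψ
  · intro x hx
    obtain ⟨h1, h2, h3⟩ := free_inst hx
    exact h2 (free_rf hP h3)
  · exact closed_robinson ψ hψ
  · exact closed_U0 ψ hψ
  · exact closed_TE ψ hψ

theorem closed_goal {P : Fml} (hP : Numerates P) :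
    (Fm.all 3 (XX.imp (con P (RA P)))).Closed := by
  rintro x ⟨h1, h2 | h2⟩
  · exact h1 (free_XX h2)
  · obtain ⟨h3, h4, h5⟩ := free_inst h2
    have := free_neg4 hP h5
    omega

/-! ### the string of the axiomatization -/

theorem strs_RA (P : Fml) :
    strs (RA P) = hd ++ (List.replicate (rn P) bs).flatten ++ tl ++ digits (rn P) := by
  have e : digits (rn P) = strs (rf P :: WB) := Pool.Agent.TH197.J1545.digits_num _
  rw [e]
  unfold RA rs
  rw [Pool.Agent.TH197.J1545.strs_cons, Pool.Agent.TH197.J1545.strs_cons,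
    Pool.Agent.TH197.J1545.str_inst]
  simp [List.append_assoc]

/-! ### computations in a structure -/

variable {S : Str ℕ}

attribute [local irreducible] Pool.Agent.TH672.Fm.Sat

theorem sat_appn (q : Q S) (σ : List Bool) {ψ : Fml} (h0 : ¬ ψ.Free 0) (h1 : ¬ ψ.Free 1)
    (v : ℕ → S.M) (w : ℕ) (hv : v 17 = q.nm w) :
    Fm.Sat S (appn σ ψ) v ↔ Fm.Sat S ψ (upd (upd (upd (upd v 21 (q.nm (2 ^ σ.length))) 23
      (q.nm (num σ))) 25 (q.nm (2 ^ σ.length * w))) 27 (q.nm (2 ^ σ.length * w + num σ))) := by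
  have g : ∀ i, i < 2 → ¬ ψ.Free i → ¬ (Fm.all 25 (.imp (.mul 21 17 25)
      (.all 27 (.imp (.add 25 23 27) ψ)))).Free i := by
    intro i hi hψ h
    simp only [Fm.Free] at h
    obtain ⟨h2, h3 | ⟨h3, h4 | h4⟩⟩ := h
    · omega
    · omega
    · exact hψ h4
  have g0 := g 0 (by omega) h0
  have g1 := g 1 (by omega) h1
  unfold appn
  rw [sat_inst q (by omega) (fun h => (free_inst h).1 rfl) (fun h => g1 (free_inst h).2.2),
    sat_inst q (by omega) g0 g1]
  simp only [Fm.sat_all, Fm.sat_imp, Fm.sat_mul, Fm.sat_add, q.mul_iff, q.add_iff, upd_same]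
  have e1 : ∀ a : S.M, upd (upd (upd v 21 (q.nm (2 ^ σ.length))) 23 (q.nm (num σ))) 25 a 21 =
      q.nm (2 ^ σ.length) := fun a => by
    rw [upd_ne _ _ (by decide), upd_ne _ _ (by decide), upd_same]
  have e2 : ∀ a : S.M, upd (upd (upd v 21 (q.nm (2 ^ σ.length))) 23 (q.nm (num σ))) 25 a 17 =
      q.nm w := fun a => by
    rw [upd_ne _ _ (by decide), upd_ne _ _ (by decide), upd_ne _ _ (by decide), hv]
  have e3 : ∀ a b : S.M, upd (upd (upd (upd v 21 (q.nm (2 ^ σ.length))) 23 (q.nm (num σ))) 25 a)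
      27 b 25 = a := fun a b => by
    rw [upd_ne _ _ (by decide), upd_same]
  have e4 : ∀ a b : S.M, upd (upd (upd (upd v 21 (q.nm (2 ^ σ.length))) 23 (q.nm (num σ))) 25 a)
      27 b 23 = q.nm (num σ) := fun a b => by
    rw [upd_ne _ _ (by decide), upd_ne _ _ (by decide), upd_same]
  simp only [e1, e2, e3, e4, forall_eq, q.nm_mul, q.nm_add]

/-- the facts on the computation of strings in a structure -/
theorem op4 (q : Q S) (hT : ∀ φ ∈ TE, ∀ v : ℕ → S.M, Fm.Sat S φ v) (v : ℕ → S.M) :
    ∀ x w : ℕ, Erel x w → S.op 4 (q.nm x) (q.nm w) (q.nm w) (q.nm w) := by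
  simp only [TE, List.mem_cons, List.not_mem_nil, or_false, forall_eq_or_imp, forall_eq] at hT
  obtain ⟨t0, t1, -, -, -⟩ := hT
  intro x
  induction x with
  | zero =>
    intro w hw
    unfold Erel at hw
    rw [hw]
    have h := t0 v
    rw [Fm.sat_all] at h
    replace h := h q.o
    rw [Fm.sat_imp, sat_inst q (by omega) (by simp [Ef, Fm.Free]) (by simp [Ef, Fm.Free])] at h
    have h' := h (by rw [Fm.sat_zero, q.zero_iff, upd_same])
    simp only [Ef, Fm.sat_op, upd_same, upd_ne _ _ (show (15 : ℕ) ≠ 17 by decide)] at h'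
    have e : q.nm 0 = q.o := rfl
    rw [e]
    simpa using h'
  | succ x ih =>
    intro w hw
    unfold Erel at hw
    rw [hw]
    have h := t1 v
    rw [Fm.sat_all] at h
    replace h := h (q.nm x)
    rw [Fm.sat_all] at h
    replace h := h (q.nm (num (hd ++ (List.replicate x bs).flatten)))
    rw [Fm.sat_imp] at h
    have h1 := h (by
      simp only [Ef, Fm.sat_op, upd_same, upd_ne _ _ (show (15 : ℕ) ≠ 17 by decide)]
      exact ih _ rfl)
    rw [Fm.sat_all] at h1
    replace h1 := h1 (q.nm (x + 1))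
    rw [Fm.sat_imp] at h1
    have h2 := h1 (by
      rw [Fm.sat_succ, q.succ_iff, upd_same, upd_ne _ _ (by decide), upd_ne _ _ (by decide),
        upd_same]
      rfl)
    rw [sat_appn q bs (by simp [Ef, Fm.Free]) (by simp [Ef, Fm.Free]) _
      (num (hd ++ (List.replicate x bs).flatten))
      (by rw [upd_ne _ _ (by decide), upd_same])] at h2
    simp only [Ef, Fm.sat_op, upd_same] at h2
    rw [upd_ne _ _ (by decide), upd_ne _ _ (by decide), upd_ne _ _ (by decide),
      upd_ne _ _ (by decide), upd_same, ← Pool.Agent.TH197.J1545.num_app] at h2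
    have e : hd ++ (List.replicate (x + 1) bs).flatten =
        hd ++ (List.replicate x bs).flatten ++ bs := by
      rw [List.replicate_succ', List.flatten_append]
      simp
    rw [e]
    exact h2

theorem op5 (q : Q S) (hT : ∀ φ ∈ TE, ∀ v : ℕ → S.M, Fm.Sat S φ v) (v : ℕ → S.M) :
    ∀ z x w : ℕ, Crel x z w → S.op 5 (q.nm x) (q.nm z) (q.nm w) (q.nm w) := by
  have hT' := hT
  simp only [TE, List.mem_cons, List.not_mem_nil, or_false, forall_eq_or_imp, forall_eq] at hT'
  obtain ⟨-, -, t2, t3, t4⟩ := hT'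
  intro z
  induction z using Nat.strong_induction_on with
  | _ z ih =>
    intro x w hw
    unfold Crel at hw
    rw [hw]
    rcases Nat.eq_zero_or_pos z with rfl | hz
    · have h := t2 v
      rw [Fm.sat_all] at h
      replace h := h (q.nm x)
      rw [Fm.sat_all] at h
      replace h := h (q.nm (num (hd ++ (List.replicate x bs).flatten)))
      rw [Fm.sat_imp] at h
      have h1 := h (by
        simp only [Ef, Fm.sat_op, upd_same, upd_ne _ _ (show (15 : ℕ) ≠ 17 by decide)]
        exact op4 q hT v _ _ rfl)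
      rw [Fm.sat_all] at h1
      replace h1 := h1 q.o
      rw [Fm.sat_imp] at h1
      have h2 := h1 (by rw [Fm.sat_zero, q.zero_iff, upd_same])
      rw [sat_appn q tl (by simp [Cf, Fm.Free]) (by simp [Cf, Fm.Free]) _
        (num (hd ++ (List.replicate x bs).flatten))
        (by rw [upd_ne _ _ (by decide), upd_same])] at h2
      simp only [Cf, Fm.sat_op, upd_same] at h2
      have e15 : ∀ a b c d e f g : S.M, upd (upd (upd (upd (upd (upd (upd v 15 a) 17 b) 19 c) 21 d)
          23 e) 25 f) 27 g 15 = a := fun a b c d e f g => by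
        rw [upd_ne _ _ (by decide), upd_ne _ _ (by decide), upd_ne _ _ (by decide),
          upd_ne _ _ (by decide), upd_ne _ _ (by decide), upd_ne _ _ (by decide), upd_same]
      have e19 : ∀ a b c d e f g : S.M, upd (upd (upd (upd (upd (upd (upd v 15 a) 17 b) 19 c) 21 d)
          23 e) 25 f) 27 g 19 = c := fun a b c d e f g => by
        rw [upd_ne _ _ (by decide), upd_ne _ _ (by decide), upd_ne _ _ (by decide),
          upd_ne _ _ (by decide), upd_same]
      rw [e15, e19, ← Pool.Agent.TH197.J1545.num_app] at h2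
      rw [Pool.Agent.TH197.J1545.digits_zero, List.append_nil]
      exact h2
    · -- `z = 2 y + 1` or `z = 2 y + 2`
      obtain ⟨y, hy⟩ : ∃ y, y = (z - 1) / 2 := ⟨_, rfl⟩
      have hyz : y < z := by omega
      have e0 := ih y hyz x _ rfl
      set W := num (hd ++ (List.replicate x bs).flatten ++ tl ++ digits y) with hW
      have hc : z = 2 * y + 1 ∨ z = 2 * y + 2 := by omega
      rcases hc with hc | hc
      · have h := t3 v
        rw [Fm.sat_all] at h
        replace h := h (q.nm x)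
        rw [Fm.sat_all] at h
        replace h := h (q.nm y)
        rw [Fm.sat_all] at h
        replace h := h (q.nm W)
        simp only [Cf, Fm.sat_imp, Fm.sat_all, Fm.sat_op, Fm.sat_add, Fm.sat_succ, q.add_iff,
          q.succ_iff] at h
        have h1 := h (by simpa [upd] using e0) (q.nm (y + y)) (by simp [upd, q.nm_add])
          (q.nm (y + y + 1)) (by simp [upd, Q.nm]) (q.nm (W + W)) (by simp [upd, q.nm_add])
          (q.nm (W + W + 1)) (by simp [upd, Q.nm])
        have e : num (hd ++ (List.replicate x bs).flatten ++ tl ++ digits z) = W + W + 1 := by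
          rw [hc, Pool.Agent.TH197.J1545.digits_odd, ← List.append_assoc,
            Pool.Agent.TH197.J1545.num_snoc, ← hW]
          simp
          ring
        rw [e, hc, two_mul]
        simpa [upd] using h1
      · have h := t4 v
        rw [Fm.sat_all] at h
        replace h := h (q.nm x)
        rw [Fm.sat_all] at h
        replace h := h (q.nm y)
        rw [Fm.sat_all] at h
        replace h := h (q.nm W)
        simp only [Cf, Fm.sat_imp, Fm.sat_all, Fm.sat_op, Fm.sat_add, Fm.sat_succ, q.add_iff,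
          q.succ_iff] at h
        have h1 := h (by simpa [upd] using e0) (q.nm (y + y)) (by simp [upd, q.nm_add])
          (q.nm (y + y + 1)) (by simp [upd, Q.nm]) (q.nm (y + y + 2)) (by simp [upd, Q.nm])
          (q.nm (W + W)) (by simp [upd, q.nm_add])
          (q.nm (W + W + 1)) (by simp [upd, Q.nm]) (q.nm (W + W + 2)) (by simp [upd, Q.nm])
        have e : num (hd ++ (List.replicate x bs).flatten ++ tl ++ digits z) = W + W + 2 := by
          rw [hc, Pool.Agent.TH197.J1545.digits_even, ← List.append_assoc,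
            Pool.Agent.TH197.J1545.num_snoc, ← hW]
          simp
          ring
        rw [e, hc, two_mul]
        simpa [upd] using h1

/-! ### the fixed proof -/

theorem sat_goal {P : Fml} (hP : Numerates P) (v : ℕ → S.M)
    (hv : ∀ ψ ∈ RA P, Fm.Sat S ψ v) : Fm.Sat S (Fm.all 3 (XX.imp (con P (RA P)))) v := by
  have hall : ∀ ψ ∈ RA P, ∀ w : ℕ → S.M, Fm.Sat S ψ w := fun ψ hψ w =>
    (sat_cong fun x hx => absurd hx (closed_RA hP ψ hψ x)).1 (hv ψ hψ)
  have hWB : ∀ ψ ∈ WB, ψ ∈ RA P := fun ψ hψ => List.mem_cons_of_mem _ hψ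
  obtain ⟨q⟩ := exists_Q v fun ψ hψ => hv ψ (hWB ψ (by simp [WB, hψ]))
  have hT : ∀ φ ∈ TE, ∀ v : ℕ → S.M, Fm.Sat S φ v := fun φ hφ =>
    hall φ (hWB φ (by simp [WB, hφ]))
  have h0 : ∀ i < 2, ¬ (rf P).Free i := fun i hi h => by
    have := free_rf hP h
    omega
  have hrs := hall (rs P) (by simp [RA]) v
  unfold rs at hrs
  rw [sat_inst q (by omega) (h0 0 (by omega)) (h0 1 (by omega))] at hrs
  unfold rf at hrs
  rw [Fm.sat_all] at hrs
  have h1 := hrs (q.nm (code (RA P)))
  rw [Fm.sat_imp] at h1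
  have h2 := h1 (by
    simp only [Cf, Fm.sat_op, upd_same, upd_ne _ _ (show (29 : ℕ) ≠ 2 by decide)]
    refine op5 q hT v _ _ _ ?_
    unfold Crel code
    rw [strs_RA])
  rw [Fm.sat_all]
  intro a
  rw [Fm.sat_imp]
  intro hX
  rw [Fm.sat_all] at h2
  have h3 := h2 a
  rw [Fm.sat_imp] at h3
  have hX' : Fm.Sat S XX (upd (upd (upd v 29 (q.nm (rn P))) 2 (q.nm (code (RA P)))) 3 a) := by
    refine (sat_cong fun x hx => ?_).1 hX
    rw [free_XX hx, upd_same, upd_same]
  have h4 := h3 hX'
  have h5 : ∀ i < 2, ¬ (inst 4 (code [Fm.bot]) P.neg).Free i := fun i hi h => by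
    have := free_neg4 hP h
    omega
  show Fm.Sat S (inst 2 (code (RA P)) (inst 4 (code [Fm.bot]) P.neg)) (upd v 3 a)
  rw [sat_inst q le_rfl (h5 0 (by omega)) (h5 1 (by omega))]
  refine (sat_cong fun x hx => ?_).1 h4
  rcases free_neg4 hP hx with rfl | rfl
  · rw [upd_ne _ _ (by decide), upd_same, upd_same]
  · rw [upd_same, upd_ne _ _ (by decide), upd_same]

/-- MODULE C -/
theorem fixT : FixT := fun P hP =>
  ⟨closed_RA hP, pv_proof (Pool.Agent.TH690.J100.completeness (RA P) _ (closed_RA hP)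
    (closed_goal hP) fun _ v hv => sat_goal hP v hv)⟩

end Pool.Agent.J6H40.BC
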