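import Pool.Agent.J6H49.BC.Stm4
import Pool.Agent.J6H40.BC.Fix

/-!
# The fixed proof with dyadic numerals for the codes (module G6)
-/

set_option autoImplicit false

namespace Pool.Agent.J6H40.BC

open Pool.Agent.TH672 (Fm Str upd varStr num digits LogK ReplK Sw Pv upd_same upd_ne upd_upd
  upd_self)
open Pool.Agent.TH636.BC (Fml IsProof str strs Proves code inst robinson Arith PrRel
  Numerates con conAt lt col Ef Cf TE hd bs tl appn Erel Crel)
open Pool.Agent.TH838.J1549 (Q exists_Q sat_inst free_inst closed_robinson pv_proof sat_cong)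
open Pool.Agent.J6H49.BC

/-! ### free variables -/

theorem free_digitD {x y : ℕ} {b : Bool} {φ : Fml} (h : (digitD x b φ).Free y) :
    y ≠ 0 ∧ (y = x ∨ φ.Free y) := by
  cases b with
  | true =>
    simp only [digitD, if_true, Fm.Free] at h
    tauto
  | false =>
    simp only [digitD, Bool.false_eq_true, if_false, Fm.Free] at h
    tauto

theorem free_foldD {x y : ℕ} {φ : Fml} : ∀ {w : List Bool}, (w.foldr (digitD x) φ).Free y →
    y = x ∨ φ.Free y
  | [], h => .inr h
  | _ :: _, h => by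
    rcases (free_digitD h).2 with h | h
    · exact .inl h
    · exact free_foldD h

theorem free_instD {x n y : ℕ} {φ : Fml} (h : (instD x n φ).Free y) : y ≠ x ∧ φ.Free y := by
  simp only [instD, Fm.Free] at h
  obtain ⟨h1, h2 | h2⟩ := h
  · exact absurd h2 h1
  · rcases free_foldD h2 with h3 | h3
    · exact absurd h3 h1
    · exact ⟨h1, h3⟩

theorem free_conD {P : Fml} (hP : Numerates P) {Γ : List Fml} {x : ℕ} (h : (conD P Γ).Free x) :
    x = 3 := by
  obtain ⟨h1, h2⟩ := free_instD h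
  obtain ⟨h3, h4⟩ := free_instD h2
  simp only [Fm.neg, Fm.Free, or_false] at h4
  have := hP.free x h4
  omega

/-! ### semantics -/

variable {S : Str ℕ}

attribute [local irreducible] Pool.Agent.TH672.Fm.Sat

theorem sat_digitD (q : Q S) {x : ℕ} (hx : 2 ≤ x) {φ : Fml} (h0 : ¬ φ.Free 0)
    (h1 : ¬ φ.Free 1) (b : Bool) (m : ℕ) (v : ℕ → S.M) (hv : v x = q.nm m) :
    Fm.Sat S (digitD x b φ) v ↔
      Fm.Sat S φ (upd v x (q.nm (2 * m + if b then 2 else 1))) := by
  cases b with
  | true =>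
    simp only [digitD, if_true, Fm.sat_all, Fm.sat_imp, Fm.sat_add, Fm.sat_succ, q.add_iff,
      q.succ_iff, upd_same]
    have e1 : ∀ a : S.M, upd v 0 a x = q.nm m := fun a => by rw [upd_ne _ _ (by omega), hv]
    have e2 : ∀ a b : S.M, upd (upd v 0 a) 1 b 0 = a := fun a b => by
      rw [upd_ne _ _ (by decide), upd_same]
    have e3 : ∀ a b c : S.M, upd (upd (upd v 0 a) 1 b) x c 1 = b := fun a b c => by
      rw [upd_ne _ _ (by omega), upd_same]
    simp only [e1, e2, e3, forall_eq]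
    have e4 : q.s (q.s (q.a (q.nm m) (q.nm m))) = q.nm (2 * m + 2) := by
      rw [q.nm_add, ← two_mul]
      rfl
    rw [e4]
    refine sat_cong fun y hy => ?_
    by_cases hyx : y = x
    · rw [hyx, upd_same, upd_same]
    · have hy0 : y ≠ 0 := fun h => h0 (h ▸ hy)
      have hy1 : y ≠ 1 := fun h => h1 (h ▸ hy)
      rw [upd_ne _ _ hyx, upd_ne _ _ hyx, upd_ne _ _ hy1, upd_ne _ _ hy0]
  | false =>
    simp only [digitD, Bool.false_eq_true, if_false, Fm.sat_all, Fm.sat_imp, Fm.sat_add,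
      Fm.sat_succ, q.add_iff, q.succ_iff, upd_same]
    have e1 : ∀ a : S.M, upd v 0 a x = q.nm m := fun a => by rw [upd_ne _ _ (by omega), hv]
    have e3 : ∀ a c : S.M, upd (upd v 0 a) x c 0 = a := fun a c => by
      rw [upd_ne _ _ (by omega), upd_same]
    simp only [e1, e3, forall_eq]
    have e4 : q.s (q.a (q.nm m) (q.nm m)) = q.nm (2 * m + 1) := by
      rw [q.nm_add, ← two_mul]
      rfl
    rw [e4]
    refine sat_cong fun y hy => ?_
    by_cases hyx : y = x
    · rw [hyx, upd_same, upd_same]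
    · have hy0 : y ≠ 0 := fun h => h0 (h ▸ hy)
      rw [upd_ne _ _ hyx, upd_ne _ _ hyx, upd_ne _ _ hy0]

theorem sat_foldD (q : Q S) {x : ℕ} (hx : 2 ≤ x) {φ : Fml} (h0 : ¬ φ.Free 0)
    (h1 : ¬ φ.Free 1) : ∀ (w : List Bool) (m : ℕ) (v : ℕ → S.M), v x = q.nm m →
    (Fm.Sat S (w.foldr (digitD x) φ) v ↔
      Fm.Sat S φ (upd v x (q.nm (w.foldl (fun n b => 2 * n + if b then 2 else 1) m))))
  | [], m, v, hv => by
    rw [List.foldr_nil, List.foldl_nil, ← hv, upd_self]
  | b :: w, m, v, hv => by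
    have g : ∀ i, i < 2 → ¬ φ.Free i → ¬ (w.foldr (digitD x) φ).Free i := fun i hi hφ h => by
      rcases free_foldD h with h | h
      · omega
      · exact hφ h
    rw [List.foldr_cons, sat_digitD q hx (g 0 (by omega) h0) (g 1 (by omega) h1) b m v hv,
      sat_foldD q hx h0 h1 w _ _ (upd_same _ _ _), upd_upd, List.foldl_cons]

theorem num_digits (n : ℕ) : num (digits n) = n := by
  induction n using Nat.strong_induction_on with
  | _ n ih =>
    rw [digits]
    split_ifs with h
    · rw [h]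
      rfl
    · rw [Pool.Agent.TH197.J1545.num_snoc, ih _ (by omega)]
      by_cases h2 : n % 2 = 0
      · simp only [h2, decide_true, if_true]
        omega
      · simp only [h2, decide_false, Bool.false_eq_true, if_false]
        omega

/-- the value of a dyadic numeral -/
theorem sat_instD (q : Q S) {x : ℕ} (hx : 2 ≤ x) {φ : Fml} (h0 : ¬ φ.Free 0)
    (h1 : ¬ φ.Free 1) (n : ℕ) (v : ℕ → S.M) :
    Fm.Sat S (instD x n φ) v ↔ Fm.Sat S φ (upd v x (q.nm n)) := by
  unfold instD
  simp only [Fm.sat_all, Fm.sat_imp, Fm.sat_zero, q.zero_iff, upd_same, forall_eq]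
  have e : num (digits n) = n := num_digits n
  have e0 : q.nm 0 = q.o := rfl
  rw [← e0, sat_foldD q hx h0 h1 (digits n) 0 _ (upd_same _ _ _), upd_upd]
  unfold num at e
  rw [e]

/-! ### the fixed proof -/

theorem closed_goalD {P : Fml} (hP : Numerates P) :
    (Fm.all 3 (XX.imp (conD P (RA P)))).Closed := by
  rintro x ⟨h1, h2 | h2⟩
  · exact h1 (free_XX h2)
  · exact h1 (free_conD hP h2)

theorem sat_goalD {P : Fml} (hP : Numerates P) (v : ℕ → S.M)
    (hv : ∀ ψ ∈ RA P, Fm.Sat S ψ v) : Fm.Sat S (Fm.all 3 (XX.imp (conD P (RA P)))) v := by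
  have h := sat_goal hP v hv
  have hWB : ∀ ψ ∈ WB, ψ ∈ RA P := fun ψ hψ => List.mem_cons_of_mem _ hψ
  obtain ⟨q⟩ := exists_Q v fun ψ hψ => hv ψ (hWB ψ (by simp [WB, hψ]))
  have hP0 : ∀ i < 2, ¬ (P.neg).Free i := fun i hi h => by
    simp only [Fm.neg, Fm.Free, or_false] at h
    have := hP.free i h
    omega
  rw [Fm.sat_all] at h ⊢
  intro a
  have h2 := h a
  rw [Fm.sat_imp] at h2 ⊢
  intro hX
  have h3 := h2 hX
  unfold con at h3
  unfold conD
  have g : ∀ i < 2, ¬ (inst 4 (code [Fm.bot]) P.neg).Free i := fun i hi h =>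
    hP0 i hi (free_inst h).2.2
  have g' : ∀ i < 2, ¬ (instD 4 (code [Fm.bot]) P.neg).Free i := fun i hi h =>
    hP0 i hi (free_instD h).2
  rw [sat_inst q le_rfl (g 0 (by omega)) (g 1 (by omega)),
    sat_inst q (by omega) (hP0 0 (by omega)) (hP0 1 (by omega))] at h3
  rw [sat_instD q le_rfl (g' 0 (by omega)) (g' 1 (by omega)),
    sat_instD q (by omega) (hP0 0 (by omega)) (hP0 1 (by omega))]
  exact h3

/-- MODULE G6 -/
theorem g6 : G6T := fun P hP =>
  ⟨fun _ h => free_conD hP h, pv_proof (Pool.Agent.TH690.J100.completeness (RA P) _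
    (closed_RA hP) (closed_goalD hP) fun _ v hv => sat_goalD hP v hv)⟩

end Pool.Agent.J6H40.BC
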