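import Pool.Agent.J6H49.BC.Stm2

/-!
# Substitutions for the assembly of the short proofs
-/

set_option autoImplicit false

namespace Pool.Agent.J6H40.BC

open Pool.Agent.TH672 (Fm Form LogK)
open Pool.Agent.TH636.BC (Fml Cx blk inst lt col)
open Pool.Agent.J6H49.BC

/-! ### general facts -/

theorem ren_same (x y : ℕ) : Form.ren x y x = y := by simp [Form.ren]

theorem ren_ne {x y u : ℕ} (h : u ≠ x) : Form.ren x y u = u := by simp [Form.ren, h]

theorem subst_nf {x y : ℕ} : ∀ {φ : Fml}, ¬ φ.Free x → φ.subst x y = φ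
  | .bot, _ => rfl
  | .eq u v, h => by
    simp only [Fm.Free, not_or] at h
    simp only [Fm.subst, ren_ne (Ne.symm h.1), ren_ne (Ne.symm h.2)]
  | .zero u, h => by
    simp only [Fm.Free] at h
    simp only [Fm.subst, ren_ne (Ne.symm h)]
  | .succ u v, h => by
    simp only [Fm.Free, not_or] at h
    simp only [Fm.subst, ren_ne (Ne.symm h.1), ren_ne (Ne.symm h.2)]
  | .add u v w, h => by
    simp only [Fm.Free, not_or] at h
    simp only [Fm.subst, ren_ne (Ne.symm h.1), ren_ne (Ne.symm h.2.1), ren_ne (Ne.symm h.2.2)]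
  | .mul u v w, h => by
    simp only [Fm.Free, not_or] at h
    simp only [Fm.subst, ren_ne (Ne.symm h.1), ren_ne (Ne.symm h.2.1), ren_ne (Ne.symm h.2.2)]
  | .op i a b c d, h => by
    simp only [Fm.Free, not_or] at h
    simp only [Fm.subst, ren_ne (Ne.symm h.1), ren_ne (Ne.symm h.2.1), ren_ne (Ne.symm h.2.2.1),
      ren_ne (Ne.symm h.2.2.2)]
  | .imp φ ψ, h => by
    simp only [Fm.Free, not_or] at h
    simp only [Fm.subst, subst_nf h.1, subst_nf h.2]
  | .all u φ, h => by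
    simp only [Fm.subst]
    split_ifs with hu
    · rfl
    · rw [subst_nf fun hf => h ⟨Ne.symm hu, hf⟩]

theorem freeFor_nb {x y : ℕ} : ∀ {φ : Fml}, ¬ φ.Bd y → φ.FreeFor y x
  | .bot, _ => trivial
  | .eq _ _, _ => trivial
  | .zero _, _ => trivial
  | .succ _ _, _ => trivial
  | .add _ _ _, _ => trivial
  | .mul _ _ _, _ => trivial
  | .op _ _ _ _ _, _ => trivial
  | .imp φ ψ, h => by
    simp only [Fm.Bd, not_or] at h
    exact ⟨freeFor_nb h.1, freeFor_nb h.2⟩
  | .all u φ, h => by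
    simp only [Fm.Bd, not_or] at h
    exact .inr (.inr ⟨Ne.symm h.1, freeFor_nb h.2⟩)

theorem freeFor_nf {x y : ℕ} : ∀ {φ : Fml}, ¬ φ.Free x → φ.FreeFor y x
  | .bot, _ => trivial
  | .eq _ _, _ => trivial
  | .zero _, _ => trivial
  | .succ _ _, _ => trivial
  | .add _ _ _, _ => trivial
  | .mul _ _ _, _ => trivial
  | .op _ _ _ _ _, _ => trivial
  | .imp φ ψ, h => by
    simp only [Fm.Free, not_or] at h
    exact ⟨freeFor_nf h.1, freeFor_nf h.2⟩
  | .all u φ, h => by
    by_cases hu : u = x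
    · exact .inl hu
    · exact .inr (.inl fun hf => h ⟨Ne.symm hu, hf⟩)

theorem subst_imps (x y : ℕ) (Δ : List Fml) (φ : Fml) :
    (imps Δ φ).subst x y = imps (Δ.map fun g => g.subst x y) (φ.subst x y) := by
  induction Δ with
  | nil => rfl
  | cons g Δ ih => rw [imps_cons, List.map_cons, imps_cons, Fm.subst, ih]

theorem freeFor_imps {x y : ℕ} {Δ : List Fml} {φ : Fml} (h : ∀ g ∈ Δ, g.FreeFor y x)
    (h' : φ.FreeFor y x) : (imps Δ φ).FreeFor y x := by
  induction Δ with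
  | nil => exact h'
  | cons g Δ ih =>
    exact ⟨h g List.mem_cons_self, ih fun g' hg' => h g' (List.mem_cons_of_mem _ hg')⟩

theorem bd_imps {x : ℕ} {Δ : List Fml} {φ : Fml} :
    (imps Δ φ).Bd x ↔ (∃ g ∈ Δ, g.Bd x) ∨ φ.Bd x := by
  induction Δ with
  | nil => simp
  | cons g Δ ih => rw [imps_cons, Fm.Bd, ih]; simp [or_assoc]

/-! ### the formulas `FF` -/

theorem subst_cols {x y v : ℕ} (hv : v ≠ x) (P : List (ℕ × ℕ)) :
    (cols P v).map (fun g => g.subst x y) =
      cols (P.map fun p => (Form.ren x y p.1, Form.ren x y p.2)) v := by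
  simp only [cols, List.map_map]
  refine List.map_congr_left fun p _ => ?_
  simp only [Function.comp, col, Fm.subst, ren_ne hv]

theorem subst_neqs {x y e : ℕ} (he : e ≠ x) (D : List ℕ) :
    (neqs D e).map (fun g => g.subst x y) = neqs (D.map (Form.ren x y)) e := by
  simp only [neqs, List.map_map]
  refine List.map_congr_left fun p _ => ?_
  simp only [Function.comp, Fm.neg, Fm.subst, ren_ne he]

/-- substitution in `FF` -/
theorem subst_FF {x y : ℕ} (h15 : 15 ≠ x) (h17 : 17 ≠ x) (h19 : 19 ≠ x) (h23 : 23 ≠ x)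
    (P : List (ℕ × ℕ)) (D : List ℕ) :
    (FF P D).subst x y =
      FF (P.map fun p => (Form.ren x y p.1, Form.ren x y p.2)) (D.map (Form.ren x y)) := by
  simp only [FF, Hyp, Kf, hi, col, Fm.neg, Fm.subst, if_neg h15, if_neg h17, if_neg h19,
    if_neg h23, subst_imps, subst_cols h17, subst_cols h19, subst_neqs h23, ren_ne h15,
    ren_ne h17, ren_ne h19, ren_ne h23]

theorem bd_cols {x v : ℕ} {P : List (ℕ × ℕ)} : ¬ ∃ g ∈ cols P v, g.Bd x := by
  rintro ⟨g, hg, h⟩
  simp only [cols, List.mem_map] at hg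
  obtain ⟨p, -, rfl⟩ := hg
  exact h

theorem bd_neqs {x e : ℕ} {D : List ℕ} : ¬ ∃ g ∈ neqs D e, g.Bd x := by
  rintro ⟨g, hg, h⟩
  simp only [neqs, List.mem_map] at hg
  obtain ⟨p, -, rfl⟩ := hg
  simp only [Fm.neg, Fm.Bd, or_self] at h

theorem not_bd_FF {y : ℕ} (h15 : 15 ≠ y) (h17 : 17 ≠ y) (h19 : 19 ≠ y) (h23 : 23 ≠ y)
    (P : List (ℕ × ℕ)) (D : List ℕ) : ¬ (FF P D).Bd y := by
  intro h
  simp only [FF, Hyp, Kf, hi, col, Fm.neg, Fm.Bd, bd_imps, or_false, false_or] at h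
  rcases h with (h | h | h | h | h | h) | (h | h | h)
  · exact h17 h.symm
  · exact h19 h.symm
  · exact h23 h.symm
  · exact bd_cols h
  · exact bd_cols h
  · exact bd_neqs h
  · exact h15 h.symm
  · exact h17 h.symm
  · exact bd_cols h

theorem freeFor_FF {x y : ℕ} (h15 : 15 ≠ y) (h17 : 17 ≠ y) (h19 : 19 ≠ y) (h23 : 23 ≠ y)
    (P : List (ℕ × ℕ)) (D : List ℕ) : (FF P D).FreeFor y x :=
  freeFor_nb (not_bd_FF h15 h17 h19 h23 P D)

theorem map_PP {x y k : ℕ} (h1 : ∀ i < k, pn i ≠ x) (h2 : ∀ i < k, qn i ≠ x) :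
    (PP k).map (fun p => (Form.ren x y p.1, Form.ren x y p.2)) = PP k := by
  simp only [PP, List.map_map]
  refine List.map_congr_left fun i hi => ?_
  have hi' := List.mem_range.1 hi
  simp only [Function.comp, ren_ne (h1 i hi'), ren_ne (h2 i hi')]

/-- (s1) -/
theorem subst_s1 {k r j : ℕ} :
    (FF (PP k) (DD (r - 1))).subst (dn j) (dn (r - 1)) = FF (PP k) (DJ r j) := by
  rw [subst_FF (by unfold dn; omega) (by unfold dn; omega) (by unfold dn; omega)
    (by unfold dn; omega), map_PP (fun i _ => by unfold pn dn; omega)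
    (fun i _ => by unfold qn dn; omega)]
  congr 1
  simp only [DD, DJ, List.map_map]
  refine List.map_congr_left fun i _ => ?_
  simp only [Function.comp, Form.ren]
  by_cases h : i = j
  · rw [if_pos (by rw [h]), if_pos h]
  · rw [if_neg (by unfold dn; omega), if_neg h]

theorem freeFor_s1 {k r j : ℕ} : (FF (PP k) (DD (r - 1))).FreeFor (dn (r - 1)) (dn j) :=
  freeFor_FF (by unfold dn; omega) (by unfold dn; omega) (by unfold dn; omega)
    (by unfold dn; omega) _ _

/-- (s1) for the last `j` -/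
theorem FF_s1 {k r j : ℕ} (h : j + 1 = r) : FF (PP k) (DD (r - 1)) = FF (PP k) (DJ r j) := by
  congr 1
  simp only [DD, DJ]
  refine List.map_congr_left fun i hi => ?_
  have hi' := List.mem_range.1 hi
  rw [if_neg (by omega)]

theorem PP_succ (k : ℕ) : PP (k + 1) = PP k ++ [(pn k, qn k)] := by
  simp [PP, List.range_succ]

/-- (s2) -/
theorem subst_s2 {k r j : ℕ} :
    (FF (PP (k + 1)) (DJ r j)).subst (qn k) (dn j) = FF (PJ k j) (DJ r j) := by
  rw [subst_FF (by unfold qn; omega) (by unfold qn; omega) (by unfold qn; omega)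
    (by unfold qn; omega), PP_succ, List.map_append, map_PP (fun i _ => by unfold pn qn; omega)
    (fun i hi => by unfold qn; omega)]
  have e1 : Form.ren (qn k) (dn j) (pn k) = pn k := ren_ne (by unfold pn qn; omega)
  have e2 : (DJ r j).map (Form.ren (qn k) (dn j)) = DJ r j := by
    simp only [DJ, List.map_map]
    refine List.map_congr_left fun i _ => ?_
    simp only [Function.comp]
    split_ifs
    · exact ren_ne (by unfold dn qn; omega)
    · exact ren_ne (by unfold dn qn; omega)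
  rw [e2]
  simp only [List.map_cons, List.map_nil, e1, ren_same]
  rfl

theorem freeFor_s2 {k r j : ℕ} : (FF (PP (k + 1)) (DJ r j)).FreeFor (dn j) (qn k) :=
  freeFor_FF (by unfold dn; omega) (by unfold dn; omega) (by unfold dn; omega)
    (by unfold dn; omega) _ _

/-! ### the chains -/

theorem free_Rr {Y : Fml} (hY : ∀ x, Y.Free x → x = 3) (i x : ℕ) (h : (Rr Y i).Free x) :
    x = 0 := by
  unfold Rr at h
  induction i with
  | zero =>
    simp only [Function.iterate_zero, id, Fm.Free] at h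
    obtain ⟨h1, (h2 | h2) | h2⟩ := h
    · exact absurd h2 h1
    · exact h2
    · exact absurd (hY x h2) h1
  | succ i ih =>
    rw [Function.iterate_succ_apply'] at h
    simp only [blk, Fm.Free] at h
    obtain ⟨h1, (h2 | h2) | ⟨h3, (h4 | h4) | h4⟩⟩ := h
    · exact h2
    · exact absurd h2 h1
    · exact h4
    · exact absurd h4 h1
    · exact absurd (ih h4) h3

theorem chain_succ (j : ℕ) : chain (j + 1) = chain j ++ [Fm.succ (dn j) (dn (j + 1))] := by
  simp [chain, List.range_succ]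

theorem subst_chain {x y j : ℕ} (h : ∀ i ≤ j, dn i ≠ x) :
    (chain j).map (fun g => g.subst x y) = chain j := by
  simp only [chain, List.map_cons, List.map_map, Fm.subst, ren_ne (h 0 (Nat.zero_le _))]
  congr 1
  refine List.map_congr_left fun i hi => ?_
  have hi' := List.mem_range.1 hi
  simp only [Function.comp, Fm.subst, ren_ne (h i (by omega)), ren_ne (h (i + 1) (by omega))]

theorem freeFor_chain {x y j : ℕ} : ∀ g ∈ chain j, g.FreeFor y x := by
  intro g hg
  simp only [chain, List.mem_cons, List.mem_map] at hg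
  rcases hg with rfl | ⟨i, -, rfl⟩
  · trivial
  · trivial

/-- (s3) -/
theorem subst_s3 {Y : Fml} (hY : ∀ x, Y.Free x → x = 3) (i j : ℕ) :
    (imps (chain (j + 1) ++ [Fm.eq 0 (dn (j + 1))]) (Rr Y i)).subst (dn (j + 1)) 1 =
      imps (chain j ++ [Fm.succ (dn j) 1, Fm.eq 0 1]) (Rr Y i) := by
  rw [subst_imps, chain_succ, List.map_append, List.map_append,
    subst_chain (fun i hi => by unfold dn; omega),
    subst_nf (fun h => by have := free_Rr hY i _ h; unfold dn at this; omega)]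
  simp only [List.map_cons, List.map_nil, Fm.subst, ren_same, List.append_assoc,
    List.cons_append, List.nil_append]
  rw [ren_ne (show dn j ≠ dn (j + 1) by unfold dn; omega),
    ren_ne (show 0 ≠ dn (j + 1) by unfold dn; omega)]

theorem freeFor_s3 {Y : Fml} (hY : ∀ x, Y.Free x → x = 3) (i j : ℕ) :
    (imps (chain (j + 1) ++ [Fm.eq 0 (dn (j + 1))]) (Rr Y i)).FreeFor 1 (dn (j + 1)) := by
  refine freeFor_imps (fun g hg => ?_) (freeFor_nf fun h => by
    have := free_Rr hY i _ h; unfold dn at this; omega)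
  rcases List.mem_append.1 hg with hg | hg
  · exact freeFor_chain g hg
  · rw [List.mem_singleton] at hg
    rw [hg]
    trivial

/-- (s4) -/
theorem subst_s4 {Y : Fml} (hY : ∀ x, Y.Free x → x = 3) (n : ℕ) :
    (imps (chain 0 ++ [Fm.eq 0 (dn 0)]) (Rr Y n)).subst (dn 0) 0 =
      imps [Fm.zero 0, Fm.eq 0 0] (Rr Y n) := by
  rw [subst_imps, subst_nf (fun h => by have := free_Rr hY n _ h; unfold dn at this; omega)]
  simp only [chain, List.range_zero, List.map_nil, List.cons_append, List.nil_append,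
    List.map_cons, Fm.subst, ren_same]
  rw [ren_ne (show 0 ≠ dn 0 by unfold dn; omega)]

theorem freeFor_s4 {Y : Fml} (hY : ∀ x, Y.Free x → x = 3) (n : ℕ) :
    (imps (chain 0 ++ [Fm.eq 0 (dn 0)]) (Rr Y n)).FreeFor 0 (dn 0) := by
  refine freeFor_imps (fun g hg => ?_) (freeFor_nf fun h => by
    have := free_Rr hY n _ h; unfold dn at this; omega)
  rcases List.mem_append.1 hg with hg | hg
  · exact freeFor_chain g hg
  · rw [List.mem_singleton] at hg
    rw [hg]
    trivial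

/-! ### complexity -/

theorem bb_cols (c v : ℕ) (P : List (ℕ × ℕ)) : ∀ g ∈ cols P v, BB c g := by
  intro g hg
  simp only [cols, List.mem_map] at hg
  obtain ⟨p, -, rfl⟩ := hg
  exact bb_op _ _ _ _ _ _

theorem bb_neqs (c e : ℕ) (D : List ℕ) : ∀ g ∈ neqs D e, BB c g := by
  intro g hg
  simp only [neqs, List.mem_map] at hg
  obtain ⟨p, -, rfl⟩ := hg
  exact (bb_eq _ _ _).imp (bb_bot _)

theorem bb_FF (P : List (ℕ × ℕ)) (D : List ℕ) : BB 5 (FF P D) := by
  have h0 : BB 1 (imps (cols P 17) (imps (cols P 19)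
      (.imp (col 17 19 23) (imps (neqs D 23) .bot)))) :=
    BB.imps (bb_cols _ _ _) (BB.imps (bb_cols _ _ _) ((bb_op _ _ _ _ _ _).imp
      (BB.imps (bb_neqs _ _ _) (bb_bot _))))
  have h1 : BB 2 (Hyp P D) := fun _ => .lift (.all (.all (.all (h0 false))))
  have h2 : BB 1 (Fm.imp (hi 15 17) (imps (cols P 17) .bot)) :=
    (bb_op _ _ _ _ _ _).imp (BB.imps (bb_cols _ _ _) (bb_bot _))
  have h3 : BB 2 (Fm.neg (.all 17 (.imp (hi 15 17) (imps (cols P 17) .bot)))) :=
    (BB.imp (fun _ => .lift (.all (h2 false))) (bb_bot _))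
  have h4 : BB 3 (Kf P) := fun _ => .lift (.all (h3 false))
  exact (h1.mono (by omega)).imp ((h4.mono (by omega)).imp (bb_bot _))

theorem bb_chain (c j : ℕ) : ∀ g ∈ chain j, BB c g := by
  intro g hg
  simp only [chain, List.mem_cons, List.mem_map] at hg
  rcases hg with rfl | ⟨i, -, rfl⟩
  · exact bb_zero _ _
  · exact bb_succ _ _ _

theorem bb_Rr {Y : Fml} {c : ℕ} (hY : BB c Y) (i : ℕ) : BB (c + 2) (Rr Y i) := by
  have h : Cx false (c + 1) (Rr Y i) := by
    unfold Rr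
    induction i with
    | zero => exact .all (.imp (.eq _ _ _ _) (.lift (hY true)))
    | succ i ih =>
      rw [Function.iterate_succ_apply']
      exact .all (.imp (.succ _ _ _ _) (.all (.imp (.eq _ _ _ _) ih)))
  exact fun _ => .lift h

theorem bb_s5 {Y : Fml} {c : ℕ} (hY : BB c Y) (i j : ℕ) :
    BB (c + 2) (imps (chain j ++ [Fm.eq 0 (dn j)]) (Rr Y i)) := by
  refine BB.imps (fun g hg => ?_) (bb_Rr hY i)
  rcases List.mem_append.1 hg with hg | hg
  · exact bb_chain _ _ g hg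
  · rw [List.mem_singleton] at hg
    rw [hg]
    exact bb_eq _ _ _

theorem bb_s5' {Y : Fml} {c : ℕ} (hY : BB c Y) (i j : ℕ) :
    BB (c + 2) (imps (chain j ++ [Fm.succ (dn j) 1, Fm.eq 0 1]) (Rr Y i)) := by
  refine BB.imps (fun g hg => ?_) (bb_Rr hY i)
  rcases List.mem_append.1 hg with hg | hg
  · exact bb_chain _ _ g hg
  · simp only [List.mem_cons, List.not_mem_nil, or_false] at hg
    rcases hg with rfl | rfl
    · exact bb_succ _ _ _
    · exact bb_eq _ _ _

/-! ### sizes -/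

theorem cs_cols {n v : ℕ} (hv : v ≤ 23) {P : List (ℕ × ℕ)} (hP : P.length ≤ n + 1)
    (h : ∀ p ∈ P, p.1 ≤ 50 + 6 * n ∧ p.2 ≤ 50 + 6 * n) :
    cs (cols P v) ≤ 200 * (n + 1) ^ 2 := by
  have h1 : cs (cols P v) ≤ (cols P v).length * ((190 * (n + 1) - 0) + 4) := by
    refine cs_le fun g hg => ?_
    simp only [cols, List.mem_map] at hg
    obtain ⟨p, hp, rfl⟩ := hg
    have := h p hp
    simp only [col, sz_op]
    omega
  have h2 : (cols P v).length ≤ n + 1 := by simpa [cols] using hP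
  calc cs (cols P v) ≤ (cols P v).length * ((190 * (n + 1) - 0) + 4) := h1
    _ ≤ (n + 1) * (190 * (n + 1) + 4) := Nat.mul_le_mul h2 (by omega)
    _ ≤ 200 * (n + 1) ^ 2 := by nlinarith

theorem cs_neqs {n : ℕ} {D : List ℕ} (hD : D.length ≤ n + 1) (h : ∀ d ∈ D, d ≤ 50 + 6 * n) :
    cs (neqs D 23) ≤ 100 * (n + 1) ^ 2 := by
  have h1 : cs (neqs D 23) ≤ (neqs D 23).length * (90 * (n + 1) + 4) := by
    refine cs_le fun g hg => ?_
    simp only [neqs, List.mem_map] at hg
    obtain ⟨d, hd, rfl⟩ := hg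
    have := h d hd
    simp only [Fm.neg, sz_imp, sz_eq, sz_bot]
    omega
  have h2 : (neqs D 23).length ≤ n + 1 := by simpa [neqs] using hD
  calc cs (neqs D 23) ≤ (neqs D 23).length * (90 * (n + 1) + 4) := h1
    _ ≤ (n + 1) * (90 * (n + 1) + 4) := Nat.mul_le_mul h2 (by omega)
    _ ≤ 100 * (n + 1) ^ 2 := by nlinarith

theorem sz_FF {n : ℕ} {P : List (ℕ × ℕ)} {D : List ℕ} (hP : P.length ≤ n + 1)
    (h : ∀ p ∈ P, p.1 ≤ 50 + 6 * n ∧ p.2 ≤ 50 + 6 * n) (hD : D.length ≤ n + 1)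
    (h' : ∀ d ∈ D, d ≤ 50 + 6 * n) : sz (FF P D) ≤ 1200 * (n + 1) ^ 2 := by
  have h1 := cs_cols (v := 17) (by omega) hP h
  have h2 := cs_cols (v := 19) (by omega) hP h
  have h3 := cs_neqs hD h'
  have h4 : 1 ≤ (n + 1) ^ 2 := Nat.one_le_pow _ _ (by omega)
  simp only [FF, Hyp, Kf, hi, col, Fm.neg, sz_imp, sz_all, sz_imps, sz_op, sz_bot]
  omega

theorem PP_bd {n k : ℕ} (hk : k ≤ n + 1) : (PP k).length ≤ n + 1 ∧
    ∀ p ∈ PP k, p.1 ≤ 50 + 6 * n ∧ p.2 ≤ 50 + 6 * n := by
  refine ⟨by simpa [PP] using hk, fun p hp => ?_⟩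
  simp only [PP, List.mem_map, List.mem_range] at hp
  obtain ⟨i, hi, rfl⟩ := hp
  simp only [pn, qn]
  omega

theorem DD_bd {n r : ℕ} (hr : r ≤ n + 1) : (DD r).length ≤ n + 1 ∧
    ∀ d ∈ DD r, d ≤ 50 + 6 * n := by
  refine ⟨by simpa [DD] using hr, fun d hd => ?_⟩
  simp only [DD, List.mem_map, List.mem_range] at hd
  obtain ⟨i, hi, rfl⟩ := hd
  simp only [dn]
  omega

theorem DJ_bd {n r j : ℕ} (hr : r ≤ n + 1) : (DJ r j).length ≤ n + 1 ∧
    ∀ d ∈ DJ r j, d ≤ 50 + 6 * n := by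
  refine ⟨by simp only [DJ, List.length_map, List.length_range]; omega, fun d hd => ?_⟩
  simp only [DJ, List.mem_map, List.mem_range] at hd
  obtain ⟨i, hi, rfl⟩ := hd
  split_ifs
  · simp only [dn]; omega
  · simp only [dn]; omega

/-- (s5), sizes: `FF (PP k) (DD r)` -/
theorem sz_FF1 {n k r : ℕ} (h : k + r ≤ n + 1) : sz (FF (PP k) (DD r)) ≤ 1200 * (n + 1) ^ 2 :=
  sz_FF (PP_bd (by omega)).1 (PP_bd (by omega)).2 (DD_bd (by omega)).1 (DD_bd (by omega)).2

/-- (s5), sizes: `FF (PP k) (DJ r j)` -/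
theorem sz_FF2 {n k r j : ℕ} (h : k + r ≤ n + 1) :
    sz (FF (PP k) (DJ r j)) ≤ 1200 * (n + 1) ^ 2 :=
  sz_FF (PP_bd (by omega)).1 (PP_bd (by omega)).2 (DJ_bd (by omega)).1 (DJ_bd (by omega)).2

/-- (s5), sizes: `FF (PP (k + 1)) (DJ r j)` -/
theorem sz_FF2' {n k r j : ℕ} (h : k + r ≤ n + 1) (hr : 0 < r) :
    sz (FF (PP (k + 1)) (DJ r j)) ≤ 1200 * (n + 1) ^ 2 :=
  sz_FF (PP_bd (by omega)).1 (PP_bd (by omega)).2 (DJ_bd (by omega)).1 (DJ_bd (by omega)).2

/-- (s5), sizes: `FF (PJ k j) (DJ r j)` -/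
theorem sz_FF3 {n k r j : ℕ} (h : k + r ≤ n + 1) (hj : j < r) :
    sz (FF (PJ k j) (DJ r j)) ≤ 1200 * (n + 1) ^ 2 := by
  refine sz_FF ?_ ?_ (DJ_bd (by omega)).1 (DJ_bd (by omega)).2
  · simp only [PJ, PP, List.length_append, List.length_map, List.length_range,
      List.length_cons, List.length_nil]
    omega
  · intro p hp
    rcases List.mem_append.1 hp with hp | hp
    · exact (PP_bd (by omega)).2 p hp
    · rw [List.mem_singleton] at hp
      rw [hp]
      simp only [pn, dn]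
      omega

theorem sz_Rr (Y : Fml) (i : ℕ) : sz (Rr Y i) = sz Y + 21 + 33 * i := by
  unfold Rr
  induction i with
  | zero =>
    simp only [Function.iterate_zero, id, sz_all, sz_imp, sz_eq]
    omega
  | succ i ih =>
    rw [Function.iterate_succ_apply']
    simp only [blk, sz_all, sz_imp, sz_eq, sz_succ, ih]
    omega

theorem cs_chain {n j : ℕ} (h : j ≤ n) : cs (chain j) ≤ 110 * (n + 1) ^ 2 := by
  have h1 : cs (chain j) ≤ (chain j).length * (100 * (n + 1) + 4) := by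
    refine cs_le fun g hg => ?_
    simp only [chain, List.mem_cons, List.mem_map, List.mem_range] at hg
    rcases hg with rfl | ⟨i, hi, rfl⟩
    · simp only [sz_zero, dn]
      omega
    · simp only [sz_succ, dn]
      omega
  have h2 : (chain j).length = j + 1 := by simp [chain]
  calc cs (chain j) ≤ (chain j).length * (100 * (n + 1) + 4) := h1
    _ ≤ (n + 1) * (100 * (n + 1) + 4) := Nat.mul_le_mul (by omega) le_rfl
    _ ≤ 110 * (n + 1) ^ 2 := by nlinarith

/-- (s5), sizes -/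
theorem sz_s5 (Y : Fml) {n i j : ℕ} (h : i + j ≤ n) :
    sz (imps (chain j ++ [Fm.eq 0 (dn j)]) (Rr Y i)) ≤ (300 + sz Y) * (n + 1) ^ 2 := by
  rw [sz_imps, cs_append, cs_cons, cs_nil, sz_eq, sz_Rr]
  have h1 := cs_chain (n := n) (j := j) (by omega)
  simp only [dn]
  nlinarith [Nat.zero_le (sz Y), Nat.zero_le n, Nat.zero_le (sz Y * n),
    Nat.zero_le (sz Y * n * n)]

/-- (s5), sizes -/
theorem sz_s5' (Y : Fml) {n i j : ℕ} (h : i + j ≤ n) :
    sz (imps (chain j ++ [Fm.succ (dn j) 1, Fm.eq 0 1]) (Rr Y i)) ≤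
      (300 + sz Y) * (n + 1) ^ 2 := by
  rw [sz_imps, cs_append, cs_cons, cs_cons, cs_nil, sz_eq, sz_succ, sz_Rr]
  have h1 := cs_chain (n := n) (j := j) (by omega)
  simp only [dn]
  nlinarith [Nat.zero_le (sz Y), Nat.zero_le n, Nat.zero_le (sz Y * n),
    Nat.zero_le (sz Y * n * n)]

/-- the last formula -/
theorem sz_s4 (Y : Fml) (n : ℕ) : sz (imps [Fm.zero 0, Fm.eq 0 0] (Rr Y n)) =
    sz Y + 40 + 33 * n := by
  simp only [imps_cons, imps_nil, sz_imp, sz_zero, sz_eq, sz_Rr]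
  omega

theorem bb_s4 {Y : Fml} {c : ℕ} (hY : BB c Y) (n : ℕ) :
    BB (c + 2) (imps [Fm.zero 0, Fm.eq 0 0] (Rr Y n)) :=
  (bb_zero _ _).imp ((bb_eq _ _ _).imp (bb_Rr hY n))

end Pool.Agent.J6H40.BC
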