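import Pool.Agent.J6H49.BC.Asm0
import Pool.Agent.J6H40.BC.Subst

/-!
# The substitution lemmas in the form of the assembly
-/

set_option autoImplicit false

namespace Pool.Agent.J6H40.BC

open Pool.Agent.TH672 (Fm Form LogK)
open Pool.Agent.TH636.BC (Fml Cx blk inst lt col)
open Pool.Agent.J6H49.BC

/-- substitutions -/
theorem sl : SL where
  a1 := fun _ _ _ _ => ⟨subst_s1, freeFor_s1⟩
  a2 := fun _ _ _ h => FF_s1 h
  a3 := fun _ _ _ _ => ⟨subst_s2, freeFor_s2⟩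
  a4 := fun _ hY i j => ⟨subst_s3 hY i j, freeFor_s3 hY i j⟩
  a5 := fun _ hY n => ⟨subst_s4 hY n, freeFor_s4 hY n⟩

/-- sizes and complexities -/
theorem zl : ZL := by
  refine ⟨1200, fun C hC n k r h => ?_⟩
  have hp : 1200 * (n + 1) ^ 2 ≤ C * (n + 1) ^ 3 :=
    Nat.mul_le_mul hC (Nat.pow_le_pow_right (by omega) (by omega))
  exact ⟨⟨bb_FF _ _, (sz_FF1 h).trans hp⟩, fun j hj =>
    ⟨⟨bb_FF _ _, (sz_FF2 h).trans hp⟩, ⟨bb_FF _ _, (sz_FF3 h hj).trans hp⟩⟩⟩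

/-- sizes and complexities -/
theorem zl' : ZL' := by
  intro Y c _ _ hY
  refine ⟨300 + sz Y, fun C hC n i j h => ?_⟩
  have hp : (300 + sz Y) * (n + 1) ^ 2 ≤ C * (n + 1) ^ 3 :=
    Nat.mul_le_mul hC (Nat.pow_le_pow_right (by omega) (by omega))
  refine ⟨⟨bb_s5 hY i j, (sz_s5 Y h).trans hp⟩, ⟨bb_s5' hY i j, (sz_s5' Y h).trans hp⟩,
    ⟨bb_s4 hY i, ?_⟩⟩
  rw [sz_s4]
  have h1 : 1 ≤ (n + 1) ^ 3 := Nat.one_le_pow _ _ (by omega)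
  have h2 : n + 1 ≤ (n + 1) ^ 3 := by
    calc n + 1 = (n + 1) ^ 1 := (pow_one _).symm
      _ ≤ (n + 1) ^ 3 := Nat.pow_le_pow_right (by omega) (by omega)
  calc sz Y + 40 + 33 * i ≤ sz Y * 1 + 300 * (n + 1) := by omega
    _ ≤ sz Y * (n + 1) ^ 3 + 300 * (n + 1) ^ 3 := by gcongr
    _ = (300 + sz Y) * (n + 1) ^ 3 := by ring
    _ ≤ C * (n + 1) ^ 3 := Nat.mul_le_mul_right _ hC

end Pool.Agent.J6H40.BC
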